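import Mathlib

/-!
# Mixed radial Moore graphs do not exist for all parameters

If the undirected degree `r` is odd then a totally `(r, z)`-regular mixed graph has an even number
of vertices, but the mixed Moore bound `M(r, z, k)` can be odd for `k ≥ 3`, for example
`M(1, 1, 3) = 1 + 2 + 3 + 5 = 11`.
-/

set_option autoImplicit false

namespace Pool.Agent.Results.MP_68514f_co.ParityObstruction

/-- A mixed graph on the vertex set `V`: a set of undirected edges (a simple graph) and a set of
arcs (a relation without loops). -/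
structure MixedGraph (V : Type) where
  /-- the undirected edges -/
  edge : SimpleGraph V
  /-- `arc u v`: there is an arc from `u` to `v` -/
  arc : V → V → Prop
  /-- no loops -/
  arc_irrefl : ∀ v, ¬ arc v v

namespace MixedGraph

variable {V : Type} (G : MixedGraph V)

/-- One step of a walk: along an undirected edge or along an arc in its direction. -/
def Step (u v : V) : Prop := G.edge.Adj u v ∨ G.arc u v

/-- `G.WalkOf n u v`: there is a walk of length `n` from `u` to `v`. -/
def WalkOf : ℕ → V → V → Prop
  | 0, u, v => u = v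
  | n + 1, u, v => ∃ w, G.Step u w ∧ WalkOf n w v

/-- The distance from `u` to `v`: the least length of a walk (`⊤` if there is none). -/
noncomputable def dist (u v : V) : ℕ∞ := ⨅ n ∈ {n : ℕ | G.WalkOf n u v}, (n : ℕ∞)

/-- The out-eccentricity of `u`. -/
noncomputable def outEcc (u : V) : ℕ∞ := ⨆ v, G.dist u v

/-- The radius: the minimum out-eccentricity. -/
noncomputable def radius : ℕ∞ := ⨅ u, G.outEcc u

/-- The diameter: the maximum out-eccentricity. -/
noncomputable def diameter : ℕ∞ := ⨆ u, G.outEcc u

/-- `G` is totally `(r, z)`-regular: every vertex is on exactly `r` undirected edges, is the tail of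
exactly `z` arcs and is the head of exactly `z` arcs. -/
def TotallyRegular (r z : ℕ) : Prop :=
  ∀ v, Nat.card {w // G.edge.Adj v w} = r ∧ Nat.card {w // G.arc v w} = z ∧
    Nat.card {w // G.arc w v} = z

end MixedGraph

/-- The numbers `N_i`: `N_0 = 1`, `N_1 = r + z`, `N_i = (r + z - 1) N_{i-1} + z N_{i-2}`. -/
def N (r z : ℕ) : ℕ → ℕ
  | 0 => 1
  | 1 => r + z
  | i + 2 => (r + z - 1) * N r z (i + 1) + z * N r z i

/-- The mixed Moore bound `M(r, z, k) = ∑_{i = 0}^{k} N_i`. -/
def M (r z k : ℕ) : ℕ := ∑ i ∈ Finset.range (k + 1), N r z i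

/-- `G` is an `(r, z, k)`-mixed radial Moore graph: totally `(r, z)`-regular, of radius `k`,
of diameter `k + 1`, and of order `M(r, z, k)`. -/
def IsRadialMoore (r z k : ℕ) {V : Type} [Fintype V] (G : MixedGraph V) : Prop :=
  G.TotallyRegular r z ∧ G.radius = (k : ℕ∞) ∧ G.diameter = ((k + 1 : ℕ) : ℕ∞) ∧
    Fintype.card V = M r z k

/-- The handshake lemma: if `r` is odd, a totally `(r, z)`-regular finite mixed graph has even
order. -/
lemma even_card {V : Type} [Fintype V] (G : MixedGraph V) {r z : ℕ} (hr : Odd r)
    (hG : G.TotallyRegular r z) : Even (Fintype.card V) := by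
  classical
  have hdeg : ∀ v, G.edge.degree v = r := by
    intro v
    rw [← (hG v).1, ← SimpleGraph.card_neighborSet_eq_degree, ← Nat.card_eq_fintype_card]
    rfl
  have h := G.edge.sum_degrees_eq_twice_card_edges
  simp only [hdeg, Finset.sum_const, Finset.card_univ, smul_eq_mul] at h
  have h2 : Even (Fintype.card V * r) := ⟨G.edge.edgeFinset.card, by rw [h]; ring⟩
  rcases Nat.even_mul.1 h2 with h3 | h3
  · exact h3
  · exact absurd h3 (Nat.not_even_iff_odd.2 hr)

/-- **Mixed radial Moore graphs do not always exist.**  If `r` is odd and the mixed Moore bound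
`M(r, z, k)` is odd, then there is no `(r, z, k)`-mixed radial Moore graph; and it is not true that
an `(r, z, k)`-mixed radial Moore graph exists for all `r ≥ 1`, `z ≥ 1`, `k ≥ 2` (there is none for
`(r, z, k) = (1, 1, 3)`). -/
theorem result :
    (∀ r z k : ℕ, Odd r → Odd (M r z k) →
      ¬ ∃ (V : Type) (_ : Fintype V) (G : MixedGraph V), IsRadialMoore r z k G) ∧
    ¬ ∀ r z k : ℕ, 1 ≤ r → 1 ≤ z → 2 ≤ k →
      ∃ (V : Type) (_ : Fintype V) (G : MixedGraph V), IsRadialMoore r z k G := by
  have key : ∀ r z k : ℕ, Odd r → Odd (M r z k) →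
      ¬ ∃ (V : Type) (_ : Fintype V) (G : MixedGraph V), IsRadialMoore r z k G := by
    rintro r z k hr hM ⟨V, _, G, hG⟩
    have h1 := even_card G hr hG.1
    rw [hG.2.2.2] at h1
    exact absurd h1 (Nat.not_even_iff_odd.2 hM)
  refine ⟨key, fun h => ?_⟩
  refine key 1 1 3 (by decide) ?_ (h 1 1 3 (by norm_num) (by norm_num) (by norm_num))
  have : M 1 1 3 = 11 := by decide
  rw [this]
  decide

end Pool.Agent.Results.MP_68514f_co.ParityObstruction
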